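import Pool.Agent.Helper18.BV.St

/-!
# Bounds for Dirichlet L-functions in `Re s > 0` and near `s = 1` (project BV, module BV-1)
-/

set_option autoImplicit false

open Finset Filter Topology MeasureTheory Asymptotics

namespace Pool.Agent.Helper85.BV

open Pool.Agent.Helper18.BV

section

variable {q : ℕ} [NeZero q] (χ : DirichletCharacter ℂ q)

/-- Partial sums of a character. -/
noncomputable def cs (n : ℕ) : ℂ := ∑ k ∈ Icc 1 n, χ (k : ZMod q)

theorem sum_range_period (hχ : χ ≠ 1) : ∑ k ∈ range q, χ (k : ZMod q) = 0 := by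
  have h1 : ∑ z : ZMod q, χ z = 0 := MulChar.sum_eq_zero_of_ne_one hχ
  rw [← h1]
  refine Finset.sum_nbij' (fun k => (k : ZMod q)) (fun z => z.val) ?_ ?_ ?_ ?_ ?_
  · intro k _; simp
  · intro z _; simp [ZMod.val_lt z]
  · intro k hk; exact ZMod.val_cast_of_lt (mem_range.mp hk)
  · intro z _; simp
  · intro k _; rfl

theorem sum_Ico_period (hχ : χ ≠ 1) (a : ℕ) : ∑ k ∈ Ico a (a + q), χ (k : ZMod q) = 0 := by
  induction a with
  | zero => rw [zero_add, ← Finset.range_eq_Ico]; exact sum_range_period χ hχ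
  | succ a ih =>
    have hq : 0 < q := Nat.pos_of_ne_zero (NeZero.ne q)
    have h1 : ∑ k ∈ Ico a (a + 1 + q), χ (k : ZMod q) = 0 + χ ((a : ℕ) : ZMod q) := by
      have h2 : a + 1 + q = (a + q) + 1 := by ring
      rw [h2, Finset.sum_Ico_succ_top (by omega), ih]
      simp
    rw [Finset.sum_eq_sum_Ico_succ_bot (by omega)] at h1
    simpa using h1

theorem cs_add_period (hχ : χ ≠ 1) (n : ℕ) : cs χ (n + q) = cs χ n := by
  have h1 : ∀ m : ℕ, cs χ m = ∑ k ∈ Ico 1 (m + 1), χ (k : ZMod q) := by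
    intro m
    unfold cs
    refine Finset.sum_congr ?_ (fun _ _ => rfl)
    ext k; simp only [mem_Icc, mem_Ico]; omega
  rw [h1, h1, ← Finset.sum_Ico_consecutive _ (show 1 ≤ n + 1 by omega)
    (show n + 1 ≤ n + q + 1 by omega)]
  have h2 := sum_Ico_period χ hχ (n + 1)
  rw [show n + 1 + q = n + q + 1 by ring] at h2
  rw [h2, add_zero]

theorem norm_cs_le (n : ℕ) : ‖cs χ n‖ ≤ n := by
  unfold cs
  calc ‖∑ k ∈ Icc 1 n, χ (k : ZMod q)‖ ≤ ∑ k ∈ Icc 1 n, ‖χ (k : ZMod q)‖ := norm_sum_le _ _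
    _ ≤ ∑ k ∈ Icc 1 n, (1 : ℝ) := Finset.sum_le_sum (fun k _ => DirichletCharacter.norm_le_one χ _)
    _ = n := by simp

theorem norm_cs_le_period (hχ : χ ≠ 1) (n : ℕ) : ‖cs χ n‖ ≤ q := by
  induction n using Nat.strong_induction_on with
  | _ n ih =>
    by_cases h : n ≤ q
    · exact (norm_cs_le χ n).trans (by exact_mod_cast h)
    · have hq : 0 < q := Nat.pos_of_ne_zero (NeZero.ne q)
      have h1 : n = (n - q) + q := by omega
      rw [h1, cs_add_period χ hχ]
      exact ih (n - q) (by omega)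

/-- The partial sums as a function of a real variable. -/
noncomputable def F (t : ℝ) : ℂ := cs χ ⌊t⌋₊

theorem F_of_lt_one {t : ℝ} (ht : t < 1) : F χ t = 0 := by
  unfold F cs
  rw [Nat.floor_eq_zero.mpr ht]
  simp

theorem norm_F_le_self {t : ℝ} (ht : 0 ≤ t) : ‖F χ t‖ ≤ t :=
  (norm_cs_le χ _).trans (Nat.floor_le ht)

theorem norm_F_le (hχ : χ ≠ 1) (t : ℝ) : ‖F χ t‖ ≤ q := norm_cs_le_period χ hχ _

theorem norm_F_le_interp (hχ : χ ≠ 1) {θ : ℝ} (h0 : 0 ≤ θ) (h1 : θ ≤ 1) {t : ℝ} (ht : 0 < t) :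
    ‖F χ t‖ ≤ (q : ℝ) ^ θ * t ^ (1 - θ) := by
  have hq : (0 : ℝ) < q := by exact_mod_cast Nat.pos_of_ne_zero (NeZero.ne q)
  have h2 : ‖F χ t‖ = ‖F χ t‖ ^ θ * ‖F χ t‖ ^ (1 - θ) := by
    rcases eq_or_lt_of_le (norm_nonneg (F χ t)) with h | h
    · rw [← h]
      rcases eq_or_ne θ 0 with h3 | h3
      · subst h3; simp
      · rw [Real.zero_rpow h3]; simp
    · rw [← Real.rpow_add h]; simp
  rw [h2]
  exact mul_le_mul (Real.rpow_le_rpow (norm_nonneg _) (norm_F_le χ hχ t) h0)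
    (Real.rpow_le_rpow (norm_nonneg _) (norm_F_le_self χ ht.le) (by linarith))
    (Real.rpow_nonneg (norm_nonneg _) _) (Real.rpow_nonneg hq.le _)

theorem measurable_F : Measurable (F χ) := by
  unfold F
  exact (measurable_from_nat (f := cs χ)).comp (Nat.measurable_floor (R := ℝ))

theorem locInt_F (hχ : χ ≠ 1) : LocallyIntegrableOn (F χ) (Set.Ioi 0) := by
  have h1 : LocallyIntegrable (fun _ : ℝ => (q : ℝ)) := locallyIntegrable_const _
  exact (h1.mono (measurable_F χ).aestronglyMeasurable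
    (Eventually.of_forall (fun t => by
      rw [Real.norm_of_nonneg (Nat.cast_nonneg q)]; exact norm_F_le χ hχ t))).locallyIntegrableOn _

theorem mellin_diff (hχ : χ ≠ 1) {s : ℂ} (hs : 0 < s.re) :
    DifferentiableAt ℂ (fun z => mellin (F χ) (-z)) s := by
  have h1 : DifferentiableAt ℂ (mellin (F χ)) (-s) := by
    refine mellin_differentiableAt_of_isBigO_rpow (a := 0) (b := (-s).re - 1) (locInt_F χ hχ)
      ?_ (by simpa using hs) ?_ (by linarith)
    · simp only [neg_zero, Real.rpow_zero]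
      exact IsBigO.of_bound (q : ℝ) (Eventually.of_forall (fun t => by
        simpa using norm_F_le χ hχ t))
    · refine (EventuallyEq.isBigO (f₂ := fun _ => (0 : ℂ)) ?_).trans (isBigO_zero _ _)
      have h3 : Set.Ioo (0 : ℝ) 1 ∈ 𝓝[>] (0 : ℝ) := Ioo_mem_nhdsGT one_pos
      filter_upwards [h3] with t ht
      exact F_of_lt_one χ ht.2
  exact h1.comp s (differentiableAt_id.neg)

theorem mellin_eq (s : ℂ) :
    mellin (F χ) (-s) = ∫ t in Set.Ioi (1 : ℝ), F χ t * (t : ℂ) ^ (-(s + 1)) := by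
  unfold mellin
  have h2 : ∀ t : ℝ, (t : ℂ) ^ (-s - 1) • F χ t = F χ t * (t : ℂ) ^ (-(s + 1)) := by
    intro t
    rw [smul_eq_mul, mul_comm, neg_add']
  simp_rw [h2]
  refine setIntegral_eq_of_subset_of_ae_sdiff_eq_zero measurableSet_Ioi.nullMeasurableSet
    (Set.Ioi_subset_Ioi zero_le_one) ?_
  have h4 : ∀ᵐ t : ℝ, t ≠ 1 := by
    have : (volume : Measure ℝ) {1} = 0 := by simp
    rw [ae_iff]; simpa using this
  filter_upwards [h4] with t ht1 ht
  have h3 : t < 1 := by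
    have : ¬ (1 < t) := ht.2
    exact lt_of_le_of_ne (not_lt.mp this) ht1
  rw [F_of_lt_one χ h3, zero_mul]

theorem LFunction_eq_of_one_lt (hχ : χ ≠ 1) {s : ℂ} (hs : 1 < s.re) :
    DirichletCharacter.LFunction χ s = s * mellin (F χ) (-s) := by
  rw [DirichletCharacter.LFunction_eq_LSeries χ hs, mellin_eq]
  refine LSeries_eq_mul_integral _ (r := 0) le_rfl (by linarith)
    (DirichletCharacter.LSeriesSummable_of_one_lt_re χ hs) ?_
  refine IsBigO.of_bound (q : ℝ) (Eventually.of_forall (fun n => ?_))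
  have h := norm_cs_le_period χ hχ n
  unfold cs at h
  simpa using h

theorem LFunction_eq (hχ : χ ≠ 1) {s : ℂ} (hs : 0 < s.re) :
    DirichletCharacter.LFunction χ s = s * mellin (F χ) (-s) := by
  set U : Set ℂ := {z : ℂ | 0 < z.re} with hU
  have hUo : IsOpen U := isOpen_lt continuous_const Complex.continuous_re
  have hUc : IsPreconnected U := (convex_halfSpace_re_gt 0).isPreconnected
  have h1 : AnalyticOnNhd ℂ (DirichletCharacter.LFunction χ) U :=
    (DirichletCharacter.differentiable_LFunction hχ).differentiableOn.analyticOnNhd hUo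
  have h2 : AnalyticOnNhd ℂ (fun s => s * mellin (F χ) (-s)) U := by
    refine DifferentiableOn.analyticOnNhd ?_ hUo
    intro z hz
    exact (differentiableAt_id.mul (mellin_diff χ hχ hz)).differentiableWithinAt
  have h3 : (2 : ℂ) ∈ U := by simp [hU]
  refine h1.eqOn_of_preconnected_of_eventuallyEq h2 hUc h3 ?_ hs
  have h4 : {z : ℂ | 1 < z.re} ∈ 𝓝 (2 : ℂ) :=
    (isOpen_lt continuous_const Complex.continuous_re).mem_nhds (by simp)
  filter_upwards [h4] with z hz
  exact LFunction_eq_of_one_lt χ hχ hz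

/-- The general bound. -/
theorem norm_LFunction_le (hχ : χ ≠ 1) {s : ℂ} (hs : 0 < s.re) {θ : ℝ} (h0 : 0 ≤ θ) (h1 : θ ≤ 1)
    (h2 : 1 < θ + s.re) :
    ‖DirichletCharacter.LFunction χ s‖ ≤ ‖s‖ * ((q : ℝ) ^ θ / (θ + s.re - 1)) := by
  rw [LFunction_eq χ hχ hs, norm_mul]
  refine mul_le_mul_of_nonneg_left ?_ (norm_nonneg s)
  rw [mellin_eq]
  have h3 : IntegrableOn (fun t : ℝ => (q : ℝ) ^ θ * t ^ (-θ - s.re)) (Set.Ioi 1) :=
    (integrableOn_Ioi_rpow_of_lt (by linarith) one_pos).const_mul _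
  calc ‖∫ t in Set.Ioi (1 : ℝ), F χ t * (t : ℂ) ^ (-(s + 1))‖
      ≤ ∫ t in Set.Ioi (1 : ℝ), (q : ℝ) ^ θ * t ^ (-θ - s.re) := by
        refine norm_integral_le_of_norm_le h3 ?_
        refine (ae_restrict_mem measurableSet_Ioi).mono (fun t ht => ?_)
        have ht0 : 0 < t := lt_trans one_pos ht
        rw [norm_mul, Complex.norm_cpow_eq_rpow_re_of_pos ht0]
        calc ‖F χ t‖ * t ^ (-(s + 1)).re ≤ ((q : ℝ) ^ θ * t ^ (1 - θ)) * t ^ (-(s + 1)).re :=
              mul_le_mul_of_nonneg_right (norm_F_le_interp χ hχ h0 h1 ht0)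
                (Real.rpow_nonneg ht0.le _)
          _ = (q : ℝ) ^ θ * t ^ (-θ - s.re) := by
              rw [mul_assoc, ← Real.rpow_add ht0]
              congr 2
              simp only [Complex.neg_re, Complex.add_re, Complex.one_re]
              ring
    _ = (q : ℝ) ^ θ / (θ + s.re - 1) := by
        rw [MeasureTheory.integral_const_mul, integral_Ioi_rpow_of_lt (by linarith) one_pos,
          Real.one_rpow, div_eq_mul_one_div ((q : ℝ) ^ θ)]
        congr 1
        rw [show -θ - s.re + 1 = -(θ + s.re - 1) by ring, div_neg, neg_div, neg_neg]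

end

theorem lBound : LBound := by
  intro q _ χ hχ s hs
  have h := norm_LFunction_le χ hχ hs (θ := 1) zero_le_one le_rfl (by linarith)
  rw [Real.rpow_one, show (1 : ℝ) + s.re - 1 = s.re by ring] at h
  calc ‖DirichletCharacter.LFunction χ s‖ ≤ ‖s‖ * ((q : ℝ) / s.re) := h
    _ = q * ‖s‖ / s.re := by ring

theorem lUpper : LUpper := by
  intro ε hε
  set r0 : ℝ := min (ε / 2) (1 / 4) with hr0
  have hr0p : 0 < r0 := lt_min (by linarith) (by norm_num)
  have hr0a : r0 ≤ ε / 2 := min_le_left _ _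
  have hr0b : r0 ≤ 1 / 4 := min_le_right _ _
  refine ⟨r0 / 2, 5 / (2 * r0 ^ 2), by linarith, by linarith, by positivity, ?_⟩
  intro q _ χ hχ s hs
  have hq1 : (1 : ℝ) ≤ q := by exact_mod_cast Nat.pos_of_ne_zero (NeZero.ne q)
  have key : ∀ z : ℂ, ‖z - 1‖ ≤ r0 →
      ‖DirichletCharacter.LFunction χ z‖ ≤ 5 / (4 * r0) * (q : ℝ) ^ ε := by
    intro z hz
    have h1 : |z.re - 1| ≤ r0 := by
      have := (Complex.abs_re_le_norm (z - 1)).trans hz
      simpa using this
    have h2 : 1 - r0 ≤ z.re := by have := (abs_le.mp h1).1; linarith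
    have h3 : ‖z‖ ≤ 5 / 4 := by
      calc ‖z‖ = ‖(z - 1) + 1‖ := by ring_nf
        _ ≤ ‖z - 1‖ + ‖(1 : ℂ)‖ := norm_add_le _ _
        _ ≤ 5 / 4 := by rw [norm_one]; linarith
    have h4 := norm_LFunction_le χ hχ (s := z) (by linarith) (θ := 2 * r0) (by linarith)
      (by linarith) (by linarith)
    refine h4.trans ?_
    have h5 : (q : ℝ) ^ (2 * r0) ≤ (q : ℝ) ^ ε := Real.rpow_le_rpow_of_exponent_le hq1 (by linarith)
    calc ‖z‖ * ((q : ℝ) ^ (2 * r0) / (2 * r0 + z.re - 1))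
        ≤ (5 / 4) * ((q : ℝ) ^ ε / r0) := by
          refine mul_le_mul h3 ?_ ?_ (by norm_num)
          · exact div_le_div₀ (by positivity) h5 hr0p (by linarith)
          · exact div_nonneg (by positivity) (by linarith)
      _ = 5 / (4 * r0) * (q : ℝ) ^ ε := by field_simp
  have hC : 5 / (4 * r0) ≤ 5 / (2 * r0 ^ 2) := by
    apply div_le_div_of_nonneg_left (by norm_num) (by positivity)
    nlinarith
  refine ⟨?_, ?_⟩
  · exact (key s (by linarith)).trans (mul_le_mul_of_nonneg_right hC (by positivity))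
  · have h6 : ‖deriv (DirichletCharacter.LFunction χ) s‖ ≤
        (5 / (4 * r0) * (q : ℝ) ^ ε) / (r0 / 2) := by
      refine Complex.norm_deriv_le_of_forall_mem_sphere_norm_le (by linarith)
        (DirichletCharacter.differentiable_LFunction hχ).diffContOnCl ?_
      intro z hz
      refine key z ?_
      have h7 : ‖z - s‖ = r0 / 2 := by simpa [dist_eq_norm] using hz
      calc ‖z - 1‖ = ‖(z - s) + (s - 1)‖ := by ring_nf
        _ ≤ ‖z - s‖ + ‖s - 1‖ := norm_add_le _ _
        _ ≤ r0 := by linarith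
    refine h6.trans (le_of_eq ?_)
    field_simp
    norm_num

end Pool.Agent.Helper85.BV
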